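import Pool.Agent.J4.H19.LR.Main

/-!
# Cox rings of varieties with trivial canonical class which are birational to abelian covers of
# projective space branched along log canonical hypersurfaces

Let `F k`, `k = 0, ..., n`, be forms of degrees `d k` in `n + 1` variables without a common zero such
that the pair of the projective `n`-space and the sum of the hypersurfaces `F k = 0` is log canonical
(for instance, products of the members of `n + 1` parts of a finite family of hypersurfaces with
normal crossings), and let `K` be the function field of an abelian cover of the projective space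
which is branched only along these hypersurfaces: `K` is generated by the affine coordinates
`x (b + 1) / x 0` and by roots `z j`, `z j ^ (m j) = ∏ k, (F k (x) / x 0 ^ (d k)) ^ (a j k)`, where
`m j` divides `∑ k, a j k * d k`.

A prime divisor `P` over the models of `K` has the multiplicities `mult k` along the hypersurfaces
`F k = 0`. Let `Y` be a normal projective variety with function field `K`, with terminal
singularities (for instance, smooth) and `r K_Y ~ 0` for some `r ≥ 1`. A Weil divisor on `Y` (with
rational coefficients) is *uniform* if its coefficients in two prime divisors of `Y` with the same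
multiplicities are equal, and zero if the multiplicities are zero.

**Theorem.** Let `L 1, ..., L s` be Weil `ℚ`-divisors on `Y` which are linearly equivalent to uniform
divisors. For every finitely generated submonoid `S` of `ℤ ^ s` (for instance, `ℤ ^ s` and `ℕ ^ s`)
the ring `⨁_(m ∈ S) H⁰ (Y, ∑ i, m i L i)` is finitely generated.

If all divisors on `Y` are `ℚ`-linearly equivalent to uniform divisors, and `Y` is `ℚ`-factorial with
`H ^ 1 (Y, O_Y) = 0`, this says that `Y` is a Mori dream space: its nef cone is rational polyhedral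
and generated by semiample divisors, and it has finitely many small modifications, with the same
properties, such that the union of their nef cones is the cone of the movable divisors. If `n ≥ 3`
this applies to the crepant resolutions and terminalizations of the double covers of the projective
space which are branched along `n + 1` smooth hypersurfaces with normal crossings and with the sum
of the degrees `2 n + 2`.
-/

set_option autoImplicit false

open FF MvPolynomial Pool.Agent.W602.GT

namespace Pool.Agent.Results.MP_5ee2d0_ag.CoxRings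

/-- The affine coordinates of the projective space. -/
noncomputable def affine {n : ℕ} {K : Type} [Field K] (x : Fin (n + 1) → K) (b : Fin n) : K :=
  x b.succ / x 0

/-- The value of the form `Ω = ∑ i, ± x i * d x 0 ∧ ... ∧ d x n` (without `d x i`) on vector fields:
the determinant with the rows `x`, `D 0 x`, ..., `D (n - 1) x`. -/
noncomputable def form {n : ℕ} {K : Type} [Field K] [Algebra ℂ K] (x : Fin (n + 1) → K)
    (D : Fin n → Derivation ℂ K K) : K :=
  (Matrix.of fun i j : Fin (n + 1) => (Fin.cases (x j) (fun l => D l (x j)) i : K)).det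

/-- The pair of the projective `n`-space and the sum of the hypersurfaces `F k = 0` is log
canonical: for all prime divisors `P` over the projective space (divisorial places `P` of its function
field `K`), and homogeneous coordinates `x` which are regular and not all zero at `P`, the canonical
form of the projective space vanishes along `P` at least to the order `∑ k, P.ord (F k (x)) - 1`. -/
def LogCanonicalSum {n : ℕ} (F : Fin (n + 1) → MvPolynomial (Fin (n + 1)) ℂ) : Prop :=
  ∀ (K : Type) [Field K] [Algebra ℂ K] (x : Fin (n + 1) → K), x 0 ≠ 0 →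
    IsTranscendenceBasis ℂ (affine x) → IntermediateField.adjoin ℂ (Set.range (affine x)) = ⊤ →
    ∀ P : Place ℂ K, Divisorial n P → (∀ l, 0 ≤ P.ord (x l)) → (∃ l, P.ord (x l) = 0) →
    ∀ D : Fin n → Derivation ℂ K K, (∀ c, DerReg P (D c)) →
      form x D = 0 ∨ ∑ k, P.ord (aeval x (F k)) - 1 ≤ P.ord (form x D)

/-- The hypersurfaces `F k = 0` have no common point. -/
def NoCommonPoint {n : ℕ} (F : Fin (n + 1) → MvPolynomial (Fin (n + 1)) ℂ) : Prop :=
  ∀ x : Fin (n + 1) → ℂ, x ≠ 0 → ∃ k, eval x (F k) ≠ 0

section places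

variable {n : ℕ} {K : Type} [Field K] [Algebra ℂ K]

/-- The smallest order of the homogeneous coordinates at `P`. -/
noncomputable def minOrder (x : Fin (n + 1) → K) (P : Place ℂ K) : ℤ :=
  Finset.univ.inf' Finset.univ_nonempty fun l => P.ord (x l)

/-- The multiplicity of the divisor `P` along the hypersurface `F k = 0`: the order of `F k (x)`, if
the homogeneous coordinates `x` are chosen such that their smallest order is zero. -/
noncomputable def mult (F : Fin (n + 1) → MvPolynomial (Fin (n + 1)) ℂ) (d : Fin (n + 1) → ℕ)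
    (x : Fin (n + 1) → K) (P : Place ℂ K) (k : Fin (n + 1)) : ℤ :=
  P.ord (aeval x (F k)) - d k * minOrder x P

end places

section models

variable {K : Type} [Field K] [Algebra ℂ K] {N : ℕ}

/-- The coordinate ring of the affine chart `y j ≠ 0` of the projective variety with generic point
`y`. -/
def chart (y : Fin (N + 1) → K) (j : Fin (N + 1)) : Subalgebra ℂ K :=
  Algebra.adjoin ℂ (Set.range fun i => y i / y j)

/-- `y` is the generic point, in homogeneous coordinates, of a normal projective variety `Y` in the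
projective `N`-space with function field `K`. -/
def NormalModel (y : Fin (N + 1) → K) : Prop :=
  (∃ j, y j ≠ 0) ∧
  (∀ j, y j ≠ 0 → IntermediateField.adjoin ℂ (Set.range fun i => y i / y j) = ⊤) ∧
  ∀ j, y j ≠ 0 → IsIntegrallyClosed (chart y j)

/-- The centre of the place `P` on `Y` is in the chart `y j ≠ 0`. -/
def Centred (y : Fin (N + 1) → K) (j : Fin (N + 1)) (P : Place ℂ K) : Prop :=
  y j ≠ 0 ∧ ∀ i, P.Reg (y i / y j)

/-- The local ring of `Y` at the centre of the place `P`: the quotients `a / b` of elements of the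
coordinate ring of a chart which contains the centre, such that `b` is not zero at the centre. -/
def localRing (y : Fin (N + 1) → K) (P : Place ℂ K) : Set K :=
  {f | ∃ j, Centred y j P ∧ ∃ a ∈ chart y j, ∃ b ∈ chart y j, b ≠ 0 ∧ P.ord b = 0 ∧ f * b = a}

/-- `P` is a prime divisor on `Y`: the valuation ring of `P` is the local ring of `Y` at the centre
of `P`. -/
def IsPrimeDivisor (y : Fin (N + 1) → K) (P : Place ℂ K) : Prop :=
  ∀ f, P.Reg f → f ∈ localRing y P

/-- The prime divisor `P` of `Y` contains the centre of the place `Q` on `Y`. -/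
def Through (y : Fin (N + 1) → K) (P Q : Place ℂ K) : Prop :=
  ∀ f ∈ localRing y Q, P.Reg f

/-- The order of the form `ω` along `P` is at least `c`: on vector fields which are regular at `P`
its values have order at least `c`. -/
def OrdGe {n : ℕ} (P : Place ℂ K) (ω : (Fin n → Derivation ℂ K K) → K) (c : ℚ) : Prop :=
  ∀ E : Fin n → Derivation ℂ K K, (∀ i, DerReg P (E i)) → ω E = 0 ∨ c ≤ P.ord (ω E)

/-- The order of the form `ω` along `P` is `c`. -/
def OrdEq {n : ℕ} (P : Place ℂ K) (ω : (Fin n → Derivation ℂ K K) → K) (c : ℚ) : Prop :=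
  OrdGe P ω c ∧ ∃ E : Fin n → Derivation ℂ K K, (∀ i, DerReg P (E i)) ∧ ω E ≠ 0 ∧ P.ord (ω E) = c

/-- `Y` has terminal singularities and `r K_Y ~ 0`, where `n` is the dimension of `Y`: the
`r`-canonical form `η` has neither zeros nor poles along the prime divisors of `Y`, and it vanishes
along all the other prime divisors over `Y`. -/
structure TrivialTerminal (y : Fin (N + 1) → K) (n r : ℕ)
    (η : (Fin n → Derivation ℂ K K) → K) : Prop where
  form : IsPluri r η
  generates : ∀ P, IsPrimeDivisor y P → OrdEq P η 0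
  terminal : ∀ Q, Divisorial n Q → ¬ IsPrimeDivisor y Q → OrdGe Q η 1

/-- `L` is a `ℚ`-divisor on `Y`: `L P` is its coefficient in the prime divisor `P` (the values at the
other places are irrelevant). -/
def IsQDivisor (y : Fin (N + 1) → K) (L : Place ℂ K → ℚ) : Prop :=
  {P | IsPrimeDivisor y P ∧ L P ≠ 0}.Finite

/-- `L` is uniform: its coefficients in two prime divisors of `Y` with the same multiplicities are
equal, and zero if the multiplicities are zero. -/
structure Uniform {n : ℕ} (F : Fin (n + 1) → MvPolynomial (Fin (n + 1)) ℂ) (d : Fin (n + 1) → ℕ)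
    (x : Fin (n + 1) → K) (y : Fin (N + 1) → K) (L : Place ℂ K → ℚ) : Prop where
  same : ∀ P P', IsPrimeDivisor y P → IsPrimeDivisor y P' →
    (∀ k, mult F d x P k = mult F d x P' k) → L P = L P'
  zero : ∀ P, IsPrimeDivisor y P → (∀ k, mult F d x P k = 0) → L P = 0

/-- `f` is a section of the divisor `∑ i, m i * L i`: it is zero, or its order along the prime divisors
`P` of `Y` is at least `- ∑ i, m i * L i P`. -/
def IsSection {s : ℕ} (y : Fin (N + 1) → K) (L : Fin s → Place ℂ K → ℚ) (m : Fin s → ℤ) (f : K) :
    Prop :=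
  f = 0 ∨ ∀ P, IsPrimeDivisor y P → -(∑ i, (m i : ℚ) * L i P) ≤ (P.ord f : ℚ)

/-- The ring `⨁_(m ∈ S) H⁰ (Y, ∑ i, m i L i)` is finitely generated: there are finitely many sections
`σ j` of degrees `e j ∈ S` such that every section of degree `m ∈ S` is a linear combination of the
products `∏ j, σ j ^ c j` of degree `∑ j, c j • e j = m`. -/
def FinitelyGenerated {s : ℕ} (y : Fin (N + 1) → K) (L : Fin s → Place ℂ K → ℚ)
    (S : AddSubmonoid (Fin s → ℤ)) : Prop :=
  ∃ (t : ℕ) (e : Fin t → Fin s → ℤ) (σ : Fin t → K), (∀ j, e j ∈ S ∧ IsSection y L (e j) (σ j)) ∧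
    ∀ m ∈ S, ∀ f, IsSection y L m f →
      f ∈ Submodule.span ℂ {g | ∃ c : Fin t → ℕ, ∑ j, c j • e j = m ∧ g = ∏ j, σ j ^ c j}

end models

/-- **Cox rings.** Let `K` be the function field of an abelian cover of the projective
`n`-space which is branched along `n + 1` hypersurfaces `F k = 0` of degrees `d k`, without a common
point and with a log canonical sum, and let `Y` be a normal projective variety with function field
`K`, with terminal singularities and `r K_Y ~ 0`. If the `L i` are Weil `ℚ`-divisors on `Y` which are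
linearly equivalent to uniform divisors `L i + div (g i)`, the rings
`⨁_(m ∈ S) H⁰ (Y, ∑ i, m i L i)` are finitely generated for all finitely generated submonoids `S` of
`ℤ ^ s`. -/
theorem result (n R : ℕ) (hn : 1 ≤ n) (d : Fin (n + 1) → ℕ) (hd : ∀ k, 1 ≤ d k)
    (F : Fin (n + 1) → MvPolynomial (Fin (n + 1)) ℂ) (hF0 : ∀ k, F k ≠ 0)
    (hF : ∀ k, (F k).IsHomogeneous (d k)) (hN : NoCommonPoint F) (hL : LogCanonicalSum F)
    (m : Fin R → ℕ) (hm : ∀ j, 1 ≤ m j) (a : Fin R → Fin (n + 1) → ℕ)
    (hdiv : ∀ j, m j ∣ ∑ k, a j k * d k)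
    (K : Type) [Field K] [Algebra ℂ K] (x : Fin (n + 1) → K) (hx0 : x 0 ≠ 0)
    (hbas : IsTranscendenceBasis ℂ (affine x)) (z : Fin R → K)
    (hz : ∀ j, z j ^ m j = ∏ k, (aeval x (F k) / x 0 ^ d k) ^ a j k)
    (hgen : IntermediateField.adjoin ℂ (Set.range (affine x) ∪ Set.range z) = ⊤)
    (N : ℕ) (y : Fin (N + 1) → K) (hy : NormalModel y)
    (r : ℕ) (hr : 1 ≤ r) (η : (Fin n → Derivation ℂ K K) → K) (hη : TrivialTerminal y n r η)
    (s : ℕ) (L : Fin s → Place ℂ K → ℚ) (hdivL : ∀ i, IsQDivisor y (L i))
    (g : Fin s → K) (hg : ∀ i, g i ≠ 0) (hu : ∀ i, Uniform F d x y fun P => L i P + P.ord (g i))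
    (S : AddSubmonoid (Fin s → ℤ)) (hS : S.FG) : FinitelyGenerated y L S := by
  classical
  obtain ⟨e, rfl⟩ : ∃ e, n = e + 1 := ⟨n - 1, by omega⟩
  have hy' : Pool.Agent.Y172.NormalModel y := ⟨hy.1, hy.2.1, hy.2.2⟩
  obtain ⟨T, hT⟩ := hS
  obtain ⟨t, w, hw⟩ : ∃ (t : ℕ) (w : Fin t → (Fin s → ℤ)), Set.range w = T := by
    refine ⟨T.card, fun j => (T.equivFin.symm j : Fin s → ℤ), ?_⟩
    ext v
    constructor
    · rintro ⟨j, rfl⟩
      exact (T.equivFin.symm j).2
    · intro hv
      exact ⟨T.equivFin ⟨v, hv⟩, by simp⟩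
  have hwS : ∀ j, w j ∈ S := by
    intro j
    rw [← hT]
    exact AddSubmonoid.subset_closure (hw ▸ ⟨j, rfl⟩)
  have hmS : ∀ v ∈ S, ∃ c : Fin t → ℕ, ∑ j, c j • w j = v := by
    intro v hv
    rw [← hT, ← hw] at hv
    obtain ⟨c, hc⟩ := AddSubmonoid.exists_of_mem_closure_range _ _ hv
    exact ⟨c, hc.symm⟩
  obtain ⟨L', hL'⟩ : ∃ L' : Fin t → Place ℂ K → ℚ, L' = fun j P =>
      ∑ i, (w j i : ℚ) * (L i P + P.ord (g i)) := ⟨_, rfl⟩
  have hU : ∀ j, Pool.Agent.J4.H19.LC.UnX F d x y (L' j) := by
    intro j
    rw [hL']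
    refine ⟨?_, fun P P' hP hP' h => ?_, fun P hP h => ?_⟩
    · have h1 : ∀ i, {P : Place ℂ K | IsPrimeDivisor y P ∧ P.ord (g i) ≠ 0}.Finite :=
        fun i => Pool.Agent.Y172.finite_ord hy' (hg i)
      refine ((Set.finite_iUnion fun i => hdivL i).union (Set.finite_iUnion h1)).subset ?_
      rintro P ⟨hP, hP0⟩
      by_contra hcon
      rw [Set.mem_union, Set.mem_iUnion, Set.mem_iUnion] at hcon
      push Not at hcon
      obtain ⟨h2, h3⟩ := hcon
      apply hP0
      refine Finset.sum_eq_zero fun i _ => ?_
      have h4 : L i P = 0 := by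
        by_contra h5
        exact h2 i ⟨hP, h5⟩
      have h6 : P.ord (g i) = 0 := by
        by_contra h5
        exact h3 i ⟨hP, h5⟩
      rw [h4, h6]
      simp
    · refine Finset.sum_congr rfl fun i _ => ?_
      have h4 : L i P + P.ord (g i) = L i P' + P'.ord (g i) := (hu i).same P P' hP hP' h
      rw [h4]
    · refine Finset.sum_eq_zero fun i _ => ?_
      have h4 : L i P + P.ord (g i) = 0 := (hu i).zero P hP h
      rw [h4, mul_zero]
  obtain ⟨t', e', τ, hτ, hspan⟩ := Pool.Agent.J4.H19.LC.main_cox hx0 hbas hd hF hF0 hN hL hm hz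
    hdiv hgen hy' hr ⟨hη.form, hη.generates, hη.terminal⟩ hU
  obtain ⟨G, hG⟩ : ∃ G : (Fin s → ℤ) → K, G = fun v => ∏ i, g i ^ v i := ⟨_, rfl⟩
  have hG0 : ∀ v, G v ≠ 0 := by
    intro v
    rw [hG]
    exact Finset.prod_ne_zero_iff.2 fun i _ => zpow_ne_zero _ (hg i)
  have hGo : ∀ (P : Place ℂ K) v, P.ord (G v) = ∑ i, v i * P.ord (g i) := by
    intro P v
    rw [hG]
    simp only
    rw [Pool.Agent.W619.PQ.ord_prod _ _ _ fun i _ => zpow_ne_zero _ (hg i)]
    refine Finset.sum_congr rfl fun i _ => ?_
    rw [P.ord_zpow]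
  have hGadd : ∀ v v', G (v + v') = G v * G v' := by
    intro v v'
    rw [hG]
    simp only [Pi.add_apply, zpow_add₀ (hg _)]
    rw [Finset.prod_mul_distrib]
  have hGz : G 0 = 1 := by
    rw [hG]
    simp
  have hGn : ∀ v (c : ℕ), G (c • v) = G v ^ c := by
    intro v c
    induction c with
    | zero => rw [zero_smul, hGz, pow_zero]
    | succ c ih => rw [succ_nsmul, hGadd, ih, pow_succ]
  have hGs : ∀ (c : Fin t' → ℕ) (v : Fin t' → Fin s → ℤ), G (∑ j, c j • v j) =
      ∏ j, G (v j) ^ c j := by
    intro c v
    have h1 : ∀ A : Finset (Fin t'), G (∑ j ∈ A, c j • v j) = ∏ j ∈ A, G (v j) ^ c j := by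
      intro A
      induction A using Finset.induction_on with
      | empty => rw [Finset.sum_empty, Finset.prod_empty, hGz]
      | insert j A hj ih => rw [Finset.sum_insert hj, Finset.prod_insert hj, hGadd, hGn, ih]
    exact h1 _
  have hsum : ∀ (c : Fin t → ℕ) (P : Place ℂ K), ∑ j, (c j : ℚ) * L' j P =
      ∑ i, (((∑ j, c j • w j) i : ℤ) : ℚ) * (L i P + P.ord (g i)) := by
    intro c P
    rw [hL']
    simp only [Finset.sum_apply, Pi.smul_apply, Finset.mul_sum]
    rw [Finset.sum_comm]
    refine Finset.sum_congr rfl fun i _ => ?_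
    push_cast
    rw [Finset.sum_mul]
    refine Finset.sum_congr rfl fun j _ => ?_
    simp only [nsmul_eq_mul]
    push_cast
    ring
  obtain ⟨E, hE⟩ : ∃ E : Fin t' → Fin s → ℤ, E = fun l => ∑ j, e' l j • w j := ⟨_, rfl⟩
  refine ⟨t', E, fun l => τ l * G (E l), fun l => ⟨?_, ?_⟩, fun v hv f hf => ?_⟩
  · rw [hE]
    exact S.sum_mem fun j _ => S.nsmul_mem (hwS j) _
  · by_cases h0 : τ l = 0
    · left
      change τ l * G (E l) = 0
      rw [h0, zero_mul]
    have h := (hτ l).resolve_left h0
    right
    intro P hP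
    have h1 := h P hP
    have h2 := hsum (e' l) P
    have h3 : (∑ j, e' l j • w j) = E l := by rw [hE]
    rw [h3] at h2
    have h4 : ((P.ord (τ l * G (E l)) : ℤ) : ℚ) = P.ord (τ l) + ∑ i, (E l i : ℚ) * P.ord (g i) := by
      rw [P.ord_mul h0 (hG0 _), hGo]
      push_cast
      rfl
    rw [h4]
    simp only [mul_add, Finset.sum_add_distrib] at h2
    linarith
  · obtain ⟨c, hc⟩ := hmS v hv
    have hf' : Pool.Agent.J4.H19.LC.FSec y L' c (f * (G v)⁻¹) := by
      rcases hf with h | h
      · left
        rw [h, zero_mul]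
      by_cases h0 : f = 0
      · left
        rw [h0, zero_mul]
      right
      intro P hP
      have h1 := h P hP
      have h2 := hsum c P
      rw [hc] at h2
      have h4 : ((P.ord (f * (G v)⁻¹) : ℤ) : ℚ) = P.ord f - ∑ i, (v i : ℚ) * P.ord (g i) := by
        rw [P.ord_mul h0 (inv_ne_zero (hG0 _)), P.ord_inv, hGo]
        push_cast
        ring
      rw [h4]
      simp only [mul_add, Finset.sum_add_distrib] at h2
      linarith
    have h1 := hspan c _ hf'
    have h2 : f = LinearMap.mulRight ℂ (G v) (f * (G v)⁻¹) := by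
      rw [LinearMap.mulRight_apply, mul_assoc, inv_mul_cancel₀ (hG0 v), mul_one]
    rw [h2]
    have h3 := Submodule.mem_map_of_mem (f := LinearMap.mulRight ℂ (G v)) h1
    rw [Submodule.map_span] at h3
    refine Submodule.span_mono ?_ h3
    rintro _ ⟨_, ⟨b, hb, rfl⟩, rfl⟩
    have h5 : ∑ l, b l • E l = v := by
      rw [← hc, ← hb, hE]
      simp only [Finset.smul_sum]
      rw [Finset.sum_comm]
      refine Finset.sum_congr rfl fun j _ => ?_
      rw [Finset.sum_apply, Finset.sum_smul]
      refine Finset.sum_congr rfl fun l _ => ?_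
      rw [Pi.smul_apply, smul_smul, smul_eq_mul]
    refine ⟨b, h5, ?_⟩
    rw [LinearMap.mulRight_apply, ← h5, hGs, ← Finset.prod_mul_distrib]
    refine Finset.prod_congr rfl fun l _ => ?_
    rw [mul_pow]

end Pool.Agent.Results.MP_5ee2d0_ag.CoxRings
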