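import Pool.Agent.J4.H19.LS.NefM

/-!
# Nef cones of varieties with trivial canonical class which are birational to abelian covers of
# projective space branched along log canonical hypersurfaces

Let `F k`, `k = 0, ..., n`, be forms of degrees `d k` in `n + 1` variables without a common zero such
that the pair of the projective `n`-space and the sum of the hypersurfaces `F k = 0` is log canonical
(for instance, products of the members of `n + 1` parts of a finite family of hypersurfaces with
normal crossings), and let `K` be the function field of an abelian cover of the projective space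
which is branched only along these hypersurfaces: `K` is generated by the affine coordinates
`x (b + 1) / x 0` and by roots `z j`, `z j ^ (m j) = ∏ k, (F k (x) / x 0 ^ (d k)) ^ (a j k)`, where
`m j` divides `∑ k, a j k * d k`.

A prime divisor `P` over the models of `K` has the multiplicities `mult k` along the hypersurfaces
`F k = 0`. Let `Y` be a normal projective variety with function field `K`, with terminal
singularities (for instance, smooth) and `r K_Y ~ 0` for some `r ≥ 1`. A Weil divisor on `Y` (with
rational coefficients) is *uniform* if its coefficients in two prime divisors of `Y` with the same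
multiplicities are equal, and zero if the multiplicities are zero.

**Theorem.** Let `L 1, ..., L s` be Weil `ℚ`-divisors on `Y` which are `ℚ`-linearly equivalent to
uniform divisors. The cone of the `t` in `ℚ ^ s` for which `∑ i, t i L i` is nef is rational
polyhedral: it is generated by finitely many integral vectors.

For varieties with trivial canonical class the cone theorem gives no information on the nef cone, and
in general it is not rational polyhedral.

Proof. The ring `⨁_(m ∈ ℤ ^ s) H⁰ (Y, ∑ i, m i L i)` is generated by finitely many sections `σ j` of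
degrees `e j`. If `∑ i, t i L i` is nef, it is semiample (`UniformNefDivisors`); therefore, for every
prime divisor `Q` over `Y` the vector `t` is in the cone generated by the degrees `e j` of the `σ j`
which generate the sheaf of `∑ i, (e j) i L i` at the centre of `Q`. There are only finitely many such
cones, and a vector in all of them gives a semiample divisor.
-/

set_option autoImplicit false

open FF MvPolynomial Pool.Agent.W602.GT

namespace Pool.Agent.Results.MP_5ee2d0_ag.NefCone

/-- The affine coordinates of the projective space. -/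
noncomputable def affine {n : ℕ} {K : Type} [Field K] (x : Fin (n + 1) → K) (b : Fin n) : K :=
  x b.succ / x 0

/-- The value of the form `Ω = ∑ i, ± x i * d x 0 ∧ ... ∧ d x n` (without `d x i`) on vector fields:
the determinant with the rows `x`, `D 0 x`, ..., `D (n - 1) x`. -/
noncomputable def form {n : ℕ} {K : Type} [Field K] [Algebra ℂ K] (x : Fin (n + 1) → K)
    (D : Fin n → Derivation ℂ K K) : K :=
  (Matrix.of fun i j : Fin (n + 1) => (Fin.cases (x j) (fun l => D l (x j)) i : K)).det

/-- The pair of the projective `n`-space and the sum of the hypersurfaces `F k = 0` is log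
canonical: for all prime divisors `P` over the projective space (divisorial places `P` of its function
field `K`), and homogeneous coordinates `x` which are regular and not all zero at `P`, the canonical
form of the projective space vanishes along `P` at least to the order `∑ k, P.ord (F k (x)) - 1`. -/
def LogCanonicalSum {n : ℕ} (F : Fin (n + 1) → MvPolynomial (Fin (n + 1)) ℂ) : Prop :=
  ∀ (K : Type) [Field K] [Algebra ℂ K] (x : Fin (n + 1) → K), x 0 ≠ 0 →
    IsTranscendenceBasis ℂ (affine x) → IntermediateField.adjoin ℂ (Set.range (affine x)) = ⊤ →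
    ∀ P : Place ℂ K, Divisorial n P → (∀ l, 0 ≤ P.ord (x l)) → (∃ l, P.ord (x l) = 0) →
    ∀ D : Fin n → Derivation ℂ K K, (∀ c, DerReg P (D c)) →
      form x D = 0 ∨ ∑ k, P.ord (aeval x (F k)) - 1 ≤ P.ord (form x D)

/-- The hypersurfaces `F k = 0` have no common point. -/
def NoCommonPoint {n : ℕ} (F : Fin (n + 1) → MvPolynomial (Fin (n + 1)) ℂ) : Prop :=
  ∀ x : Fin (n + 1) → ℂ, x ≠ 0 → ∃ k, eval x (F k) ≠ 0

section places

variable {n : ℕ} {K : Type} [Field K] [Algebra ℂ K]

/-- The smallest order of the homogeneous coordinates at `P`. -/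
noncomputable def minOrder (x : Fin (n + 1) → K) (P : Place ℂ K) : ℤ :=
  Finset.univ.inf' Finset.univ_nonempty fun l => P.ord (x l)

/-- The multiplicity of the divisor `P` along the hypersurface `F k = 0`: the order of `F k (x)`, if
the homogeneous coordinates `x` are chosen such that their smallest order is zero. -/
noncomputable def mult (F : Fin (n + 1) → MvPolynomial (Fin (n + 1)) ℂ) (d : Fin (n + 1) → ℕ)
    (x : Fin (n + 1) → K) (P : Place ℂ K) (k : Fin (n + 1)) : ℤ :=
  P.ord (aeval x (F k)) - d k * minOrder x P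

end places

section models

variable {K : Type} [Field K] [Algebra ℂ K] {N : ℕ}

/-- The coordinate ring of the affine chart `y j ≠ 0` of the projective variety with generic point
`y`. -/
def chart (y : Fin (N + 1) → K) (j : Fin (N + 1)) : Subalgebra ℂ K :=
  Algebra.adjoin ℂ (Set.range fun i => y i / y j)

/-- `y` is the generic point, in homogeneous coordinates, of a normal projective variety `Y` in the
projective `N`-space with function field `K`. -/
def NormalModel (y : Fin (N + 1) → K) : Prop :=
  (∃ j, y j ≠ 0) ∧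
  (∀ j, y j ≠ 0 → IntermediateField.adjoin ℂ (Set.range fun i => y i / y j) = ⊤) ∧
  ∀ j, y j ≠ 0 → IsIntegrallyClosed (chart y j)

/-- The centre of the place `P` on `Y` is in the chart `y j ≠ 0`. -/
def Centred (y : Fin (N + 1) → K) (j : Fin (N + 1)) (P : Place ℂ K) : Prop :=
  y j ≠ 0 ∧ ∀ i, P.Reg (y i / y j)

/-- The local ring of `Y` at the centre of the place `P`: the quotients `a / b` of elements of the
coordinate ring of a chart which contains the centre, such that `b` is not zero at the centre. -/
def localRing (y : Fin (N + 1) → K) (P : Place ℂ K) : Set K :=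
  {f | ∃ j, Centred y j P ∧ ∃ a ∈ chart y j, ∃ b ∈ chart y j, b ≠ 0 ∧ P.ord b = 0 ∧ f * b = a}

/-- `P` is a prime divisor on `Y`: the valuation ring of `P` is the local ring of `Y` at the centre
of `P`. -/
def IsPrimeDivisor (y : Fin (N + 1) → K) (P : Place ℂ K) : Prop :=
  ∀ f, P.Reg f → f ∈ localRing y P

/-- The prime divisor `P` of `Y` contains the centre of the place `Q` on `Y`. -/
def Through (y : Fin (N + 1) → K) (P Q : Place ℂ K) : Prop :=
  ∀ f ∈ localRing y Q, P.Reg f

/-- The order of the form `ω` along `P` is at least `c`: on vector fields which are regular at `P`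
its values have order at least `c`. -/
def OrdGe {n : ℕ} (P : Place ℂ K) (ω : (Fin n → Derivation ℂ K K) → K) (c : ℚ) : Prop :=
  ∀ E : Fin n → Derivation ℂ K K, (∀ i, DerReg P (E i)) → ω E = 0 ∨ c ≤ P.ord (ω E)

/-- The order of the form `ω` along `P` is `c`. -/
def OrdEq {n : ℕ} (P : Place ℂ K) (ω : (Fin n → Derivation ℂ K K) → K) (c : ℚ) : Prop :=
  OrdGe P ω c ∧ ∃ E : Fin n → Derivation ℂ K K, (∀ i, DerReg P (E i)) ∧ ω E ≠ 0 ∧ P.ord (ω E) = c

/-- `Y` has terminal singularities and `r K_Y ~ 0`, where `n` is the dimension of `Y`: the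
`r`-canonical form `η` has neither zeros nor poles along the prime divisors of `Y`, and it vanishes
along all the other prime divisors over `Y`. -/
structure TrivialTerminal (y : Fin (N + 1) → K) (n r : ℕ)
    (η : (Fin n → Derivation ℂ K K) → K) : Prop where
  form : IsPluri r η
  generates : ∀ P, IsPrimeDivisor y P → OrdEq P η 0
  terminal : ∀ Q, Divisorial n Q → ¬ IsPrimeDivisor y Q → OrdGe Q η 1

/-- `L` is a `ℚ`-divisor on `Y`: `L P` is its coefficient in the prime divisor `P` (the values at the
other places are irrelevant). -/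
def IsQDivisor (y : Fin (N + 1) → K) (L : Place ℂ K → ℚ) : Prop :=
  {P | IsPrimeDivisor y P ∧ L P ≠ 0}.Finite

/-- `L` is nef: if `H` is a hyperplane section `y i = 0`, then for all `q ≥ 1` the divisor `q L + H` is
semiample, that is, for some `m ≥ 1` and for all prime divisors `Q` over `Y` there is a section `f` of
`m (q L + H)`, a rational function with order at least `- m q L P - m ord_P (y i / y l)` along the prime
divisors `P` of `Y` with centre in the chart `y l ≠ 0`, which generates this sheaf at the centre of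
`Q`. -/
def Nef (y : Fin (N + 1) → K) (n : ℕ) (L : Place ℂ K → ℚ) : Prop :=
  ∀ i, y i ≠ 0 → ∀ q : ℕ, 1 ≤ q → ∃ m : ℕ, 1 ≤ m ∧ ∀ Q : Place ℂ K, Divisorial n Q →
    ∃ f : K, f ≠ 0 ∧ (∀ P l, IsPrimeDivisor y P → Centred y l P →
        -((m * q : ℕ) * L P) - m * P.ord (y i / y l) ≤ (P.ord f : ℚ)) ∧
      ∀ P l, IsPrimeDivisor y P → Through y P Q → Centred y l P →
        (P.ord f : ℚ) = -((m * q : ℕ) * L P) - m * P.ord (y i / y l)

/-- `L` is semiample: for some `T ≥ 1` the sheaf of `T L` has, for every prime divisor `Q` over `Y`, a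
global section `f` (a rational function with order at least `- T L P` along all prime divisors `P` of
`Y`) which generates it at the centre of `Q` (the order is `- T L P` along the prime divisors `P`
through this centre). -/
def Semiample (y : Fin (N + 1) → K) (n : ℕ) (L : Place ℂ K → ℚ) : Prop :=
  ∃ T : ℕ, 0 < T ∧ ∀ Q : Place ℂ K, Divisorial n Q → ∃ f : K, f ≠ 0 ∧
    (∀ P, IsPrimeDivisor y P → -(T * L P) ≤ (P.ord f : ℚ)) ∧
    ∀ P, IsPrimeDivisor y P → Through y P Q → (P.ord f : ℚ) = -(T * L P)

/-- `L` is uniform: its coefficients in two prime divisors of `Y` with the same multiplicities are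
equal, and zero if the multiplicities are zero. -/
structure Uniform {n : ℕ} (F : Fin (n + 1) → MvPolynomial (Fin (n + 1)) ℂ) (d : Fin (n + 1) → ℕ)
    (x : Fin (n + 1) → K) (y : Fin (N + 1) → K) (L : Place ℂ K → ℚ) : Prop where
  same : ∀ P P', IsPrimeDivisor y P → IsPrimeDivisor y P' →
    (∀ k, mult F d x P k = mult F d x P' k) → L P = L P'
  zero : ∀ P, IsPrimeDivisor y P → (∀ k, mult F d x P k = 0) → L P = 0

/-- The divisor `∑ i, t i L i`. -/
def combination {s : ℕ} (L : Fin s → Place ℂ K → ℚ) (t : Fin s → ℚ) (P : Place ℂ K) : ℚ :=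
  ∑ i, t i * L i P

end models

/-- `L + div g / k` is nef if `L` is. -/
theorem nef_add {K : Type} [Field K] [Algebra ℂ K] {N n : ℕ} {y : Fin (N + 1) → K}
    {L : Place ℂ K → ℚ} (h : Nef y n L) {k : ℕ} (hk : 1 ≤ k) {g : K} (hg : g ≠ 0) :
    Nef y n fun P => L P + (P.ord g : ℚ) / k := by
  intro i hi q hq
  obtain ⟨m, hm, h1⟩ := h i hi q hq
  refine ⟨k * m, Nat.mul_pos hk hm, fun Q hQ => ?_⟩
  obtain ⟨f, hf, h2, h3⟩ := h1 Q hQ
  have hk0 : (0 : ℚ) < k := by exact_mod_cast hk
  have hgm : g⁻¹ ^ (m * q) ≠ 0 := pow_ne_zero _ (inv_ne_zero hg)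
  have ho : ∀ P : Place ℂ K, ((P.ord (f ^ k * g⁻¹ ^ (m * q)) : ℤ) : ℚ) =
      k * P.ord f - m * q * P.ord g := by
    intro P
    rw [P.ord_mul (pow_ne_zero _ hf) hgm, P.ord_pow, P.ord_pow, P.ord_inv]
    push_cast
    ring
  refine ⟨f ^ k * g⁻¹ ^ (m * q), mul_ne_zero (pow_ne_zero _ hf) hgm, fun P l hP hl => ?_,
    fun P l hP hPt hl => ?_⟩
  · have h4 := h2 P l hP hl
    rw [ho]
    have h5 : (((k * m * q : ℕ) : ℚ)) * (L P + (P.ord g : ℚ) / k) =
        k * (((m * q : ℕ) : ℚ) * L P) + m * q * P.ord g := by
      push_cast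
      field_simp
    rw [h5]
    push_cast at h4 ⊢
    nlinarith [mul_le_mul_of_nonneg_left h4 hk0.le]
  · have h4 := h3 P l hP hPt hl
    rw [ho, h4]
    push_cast
    field_simp
    ring

/-- `L` is semiample if `L + div g / k` is. -/
theorem semiample_sub {K : Type} [Field K] [Algebra ℂ K] {N n : ℕ} {y : Fin (N + 1) → K}
    {L : Place ℂ K → ℚ} {k : ℕ} (hk : 1 ≤ k) {g : K} (hg : g ≠ 0)
    (h : Semiample y n fun P => L P + (P.ord g : ℚ) / k) : Semiample y n L := by
  obtain ⟨T, hT, h1⟩ := h
  refine ⟨k * T, Nat.mul_pos hk hT, fun Q hQ => ?_⟩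
  obtain ⟨f, hf, h2, h3⟩ := h1 Q hQ
  have hk0 : (0 : ℚ) < k := by exact_mod_cast hk
  have hgm : g ^ T ≠ 0 := pow_ne_zero _ hg
  have ho : ∀ P : Place ℂ K, ((P.ord (f ^ k * g ^ T) : ℤ) : ℚ) =
      k * P.ord f + T * P.ord g := by
    intro P
    rw [P.ord_mul (pow_ne_zero _ hf) hgm, P.ord_pow, P.ord_pow]
    push_cast
    ring
  refine ⟨f ^ k * g ^ T, mul_ne_zero (pow_ne_zero _ hf) hgm, fun P hP => ?_, fun P hP hPt => ?_⟩
  · have h4 := h2 P hP
    rw [ho]
    have h5 : (k : ℚ) * (T * (L P + (P.ord g : ℚ) / k)) = k * T * L P + T * P.ord g := by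
      field_simp
    have h6 := mul_le_mul_of_nonneg_left h4 hk0.le
    rw [mul_neg, h5] at h6
    push_cast
    linarith
  · have h4 := h3 P hP hPt
    rw [ho, h4]
    push_cast
    field_simp
    ring

/-- **The nef cone.** Let `K` be the function field of an abelian cover of the projective
`n`-space which is branched along `n + 1` hypersurfaces `F k = 0` of degrees `d k`, without a common
point and with a log canonical sum, and let `Y` be a normal projective variety with function field
`K`, with terminal singularities and `r K_Y ~ 0`. If the `L i` are Weil `ℚ`-divisors on `Y` which are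
`ℚ`-linearly equivalent to uniform divisors `L i + (div (g i)) / k i`, the cone of the rational vectors
`t` such that `∑ i, t i L i` is nef is generated by finitely many integral vectors `p j`, and these
divisors are semiample. -/
theorem result (n R : ℕ) (hn : 1 ≤ n) (d : Fin (n + 1) → ℕ) (hd : ∀ k, 1 ≤ d k)
    (F : Fin (n + 1) → MvPolynomial (Fin (n + 1)) ℂ) (hF0 : ∀ k, F k ≠ 0)
    (hF : ∀ k, (F k).IsHomogeneous (d k)) (hN : NoCommonPoint F) (hL : LogCanonicalSum F)
    (m : Fin R → ℕ) (hm : ∀ j, 1 ≤ m j) (a : Fin R → Fin (n + 1) → ℕ)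
    (hdiv : ∀ j, m j ∣ ∑ k, a j k * d k)
    (K : Type) [Field K] [Algebra ℂ K] (x : Fin (n + 1) → K) (hx0 : x 0 ≠ 0)
    (hbas : IsTranscendenceBasis ℂ (affine x)) (z : Fin R → K)
    (hz : ∀ j, z j ^ m j = ∏ k, (aeval x (F k) / x 0 ^ d k) ^ a j k)
    (hgen : IntermediateField.adjoin ℂ (Set.range (affine x) ∪ Set.range z) = ⊤)
    (N : ℕ) (y : Fin (N + 1) → K) (hy : NormalModel y)
    (r : ℕ) (hr : 1 ≤ r) (η : (Fin n → Derivation ℂ K K) → K) (hη : TrivialTerminal y n r η)
    (s : ℕ) (L : Fin s → Place ℂ K → ℚ) (hdivL : ∀ i, IsQDivisor y (L i))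
    (k : Fin s → ℕ) (hk : ∀ i, 1 ≤ k i) (g : Fin s → K) (hg : ∀ i, g i ≠ 0)
    (hu : ∀ i, Uniform F d x y fun P => L i P + (P.ord (g i) : ℚ) / k i) :
    ∃ (N' : ℕ) (p : Fin N' → Fin s → ℤ), ∀ t : Fin s → ℚ,
      Nef y n (combination L t) ↔
        ∃ b : Fin N' → ℚ, (∀ j, 0 ≤ b j) ∧ ∀ i, t i = ∑ j, b j * p j i := by
  classical
  obtain ⟨e, rfl⟩ : ∃ e, n = e + 1 := ⟨n - 1, by omega⟩
  have hy' : Pool.Agent.Y172.NormalModel y := ⟨hy.1, hy.2.1, hy.2.2⟩
  obtain ⟨L', hL'⟩ : ∃ L' : Fin s → Place ℂ K → ℚ, L' = fun i P =>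
    L i P + (P.ord (g i) : ℚ) / k i := ⟨_, rfl⟩
  have hU : ∀ i, Pool.Agent.J4.H19.LC.UnX F d x y (L' i) := by
    intro i
    rw [hL']
    refine ⟨?_, (hu i).same, (hu i).zero⟩
    have h1 : {P : Place ℂ K | IsPrimeDivisor y P ∧ P.ord (g i) ≠ 0}.Finite :=
      Pool.Agent.Y172.finite_ord hy' (hg i)
    refine ((hdivL i).union h1).subset ?_
    rintro P ⟨hP, hP0⟩
    by_cases h2 : L i P = 0
    · right
      refine ⟨hP, fun h3 => hP0 ?_⟩
      change L i P + (P.ord (g i) : ℚ) / k i = 0
      rw [h2, h3]
      simp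
    · exact Or.inl ⟨hP, h2⟩
  obtain ⟨N', p, hp⟩ := Pool.Agent.J4.H19.LC.main_nefC hx0 hbas hd hF hF0 hN hL hm hz
    hdiv hgen hy' hr ⟨hη.form, hη.generates, hη.terminal⟩ hU
  refine ⟨N', p, fun t => ?_⟩
  -- the comparison
  obtain ⟨D, hD, hden⟩ : ∃ D : ℕ, 0 < D ∧ ∀ i, ∃ v : ℤ, (D : ℚ) * (t i / k i) = v := by
    refine ⟨∏ i, (t i / k i).den, Finset.prod_pos fun r _ => (t r / k r).den_pos, fun i => ?_⟩
    obtain ⟨c, hc⟩ : (t i / k i).den ∣ ∏ i, (t i / k i).den :=
      Finset.dvd_prod_of_mem _ (Finset.mem_univ i)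
    refine ⟨(t i / k i).num * c, ?_⟩
    rw [hc]
    push_cast
    have h3 := Rat.mul_den_eq_num (t i / k i)
    linear_combination (c : ℚ) * h3
  choose v hv using hden
  obtain ⟨G, hG⟩ : ∃ G : K, G = ∏ i, g i ^ v i := ⟨_, rfl⟩
  have hG0 : G ≠ 0 := by
    rw [hG]
    exact Finset.prod_ne_zero_iff.2 fun i _ => zpow_ne_zero _ (hg i)
  have hDq : (D : ℚ) ≠ 0 := by exact_mod_cast hD.ne'
  have hcomp : (fun P => combination L t P + (P.ord G : ℚ) / D) =
      Pool.Agent.J4.H19.LC.comb L' t := by
    funext P
    have h1 : (P.ord G : ℚ) = ∑ i, (v i : ℚ) * P.ord (g i) := by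
      rw [hG, Pool.Agent.W619.PQ.ord_prod _ _ _ fun i _ => zpow_ne_zero _ (hg i)]
      push_cast
      refine Finset.sum_congr rfl fun i _ => ?_
      rw [P.ord_zpow]
      push_cast
      rfl
    unfold combination Pool.Agent.J4.H19.LC.comb
    rw [h1, hL', Finset.sum_div, ← Finset.sum_add_distrib]
    refine Finset.sum_congr rfl fun i _ => ?_
    rw [← hv]
    field_simp
  have hnef : Nef y (e + 1) (combination L t) ↔
      Nef y (e + 1) (Pool.Agent.J4.H19.LC.comb L' t) := by
    constructor
    · intro h1
      rw [← hcomp]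
      exact nef_add h1 hD hG0
    · intro h1
      rw [← hcomp] at h1
      have h2 := nef_add h1 hD (inv_ne_zero hG0)
      have h3 : (fun P : Place ℂ K => combination L t P + (P.ord G : ℚ) / D +
          (P.ord G⁻¹ : ℚ) / D) = combination L t := by
        funext P
        rw [P.ord_inv]
        push_cast
        ring
      rw [h3] at h2
      exact h2
  exact hnef.trans (hp t).1

end Pool.Agent.Results.MP_5ee2d0_ag.NefCone
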