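import Pool.Agent.J4.H19.LR.Main

/-!
# Pseudo-effective divisors on varieties with trivial canonical class which are birational to abelian
# covers of projective space branched along log canonical hypersurfaces

Let `F k`, `k = 0, ..., n`, be forms of degrees `d k` in `n + 1` variables without a common zero such
that the pair of the projective `n`-space and the sum of the hypersurfaces `F k = 0` is log canonical
(for instance, products of the members of `n + 1` parts of a finite family of hypersurfaces with
normal crossings), and let `K` be the function field of an abelian cover of the projective space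
which is branched only along these hypersurfaces: `K` is generated by the affine coordinates
`x (b + 1) / x 0` and by roots `z j`, `z j ^ (m j) = ∏ k, (F k (x) / x 0 ^ (d k)) ^ (a j k)`, where
`m j` divides `∑ k, a j k * d k`.

A prime divisor `P` over the models of `K` has the multiplicities `mult k` along the hypersurfaces
`F k = 0`. Let `Y` be a normal projective variety with function field `K`, with terminal
singularities (for instance, smooth) and `r K_Y ~ 0` for some `r ≥ 1`. A Weil `ℚ`-divisor on `Y` is
*uniform* if its coefficients in two prime divisors of `Y` with the same multiplicities are equal, and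
zero if the multiplicities are zero.

**Theorem.** Let `L` be a pseudo-effective Weil `ℚ`-divisor on `Y` which is `ℚ`-linearly equivalent to
a uniform divisor. Then for some `T ≥ 1` there are finitely many nonzero sections `s i` of `T L` such
that for every prime divisor `Q` over `Y` one of them, `s i`, has asymptotically the smallest order at
`Q` among all sections of `m L + j H`, `H` being a hyperplane section: there is a constant `C` with
`m ord_Q (s i) ≤ T ord_Q (f) + C (j + 1)` for all `m, j ≥ 0` and all sections `f ≠ 0` of `m L + j H`.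

In particular, `T L` is linearly equivalent to an effective divisor. If `L` is `ℚ`-Cartier, the order
of `s i` as a section of `T L` at `Q`, divided by `T`, is the asymptotic order `σ_Q (L)` of Nakayama,
for all prime divisors `Q` over `Y` at the same time. If `Y' → Y` is a birational morphism such that
the movable part `M` of the linear system of the `s i` on `Y'` has no base points, then `M / T` is the
positive part of the Nakayama–Zariski decomposition of the pullback of `L` to `Y'`, and it is
semiample. The divisor `L` need not be effective or nef, and `Y` need not be `ℚ`-factorial.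
-/

set_option autoImplicit false

open FF MvPolynomial Pool.Agent.W602.GT

namespace Pool.Agent.Results.MP_5ee2d0_ag.PseudoeffectiveDivisors

/-- The affine coordinates of the projective space. -/
noncomputable def affine {n : ℕ} {K : Type} [Field K] (x : Fin (n + 1) → K) (b : Fin n) : K :=
  x b.succ / x 0

/-- The value of the form `Ω = ∑ i, ± x i * d x 0 ∧ ... ∧ d x n` (without `d x i`) on vector fields:
the determinant with the rows `x`, `D 0 x`, ..., `D (n - 1) x`. -/
noncomputable def form {n : ℕ} {K : Type} [Field K] [Algebra ℂ K] (x : Fin (n + 1) → K)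
    (D : Fin n → Derivation ℂ K K) : K :=
  (Matrix.of fun i j : Fin (n + 1) => (Fin.cases (x j) (fun l => D l (x j)) i : K)).det

/-- The pair of the projective `n`-space and the sum of the hypersurfaces `F k = 0` is log
canonical: for all prime divisors `P` over the projective space (divisorial places `P` of its function
field `K`), and homogeneous coordinates `x` which are regular and not all zero at `P`, the canonical
form of the projective space vanishes along `P` at least to the order `∑ k, P.ord (F k (x)) - 1`. -/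
def LogCanonicalSum {n : ℕ} (F : Fin (n + 1) → MvPolynomial (Fin (n + 1)) ℂ) : Prop :=
  ∀ (K : Type) [Field K] [Algebra ℂ K] (x : Fin (n + 1) → K), x 0 ≠ 0 →
    IsTranscendenceBasis ℂ (affine x) → IntermediateField.adjoin ℂ (Set.range (affine x)) = ⊤ →
    ∀ P : Place ℂ K, Divisorial n P → (∀ l, 0 ≤ P.ord (x l)) → (∃ l, P.ord (x l) = 0) →
    ∀ D : Fin n → Derivation ℂ K K, (∀ c, DerReg P (D c)) →
      form x D = 0 ∨ ∑ k, P.ord (aeval x (F k)) - 1 ≤ P.ord (form x D)

/-- The hypersurfaces `F k = 0` have no common point. -/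
def NoCommonPoint {n : ℕ} (F : Fin (n + 1) → MvPolynomial (Fin (n + 1)) ℂ) : Prop :=
  ∀ x : Fin (n + 1) → ℂ, x ≠ 0 → ∃ k, eval x (F k) ≠ 0

section places

variable {n : ℕ} {K : Type} [Field K] [Algebra ℂ K]

/-- The smallest order of the homogeneous coordinates at `P`. -/
noncomputable def minOrder (x : Fin (n + 1) → K) (P : Place ℂ K) : ℤ :=
  Finset.univ.inf' Finset.univ_nonempty fun l => P.ord (x l)

/-- The multiplicity of the divisor `P` along the hypersurface `F k = 0`: the order of `F k (x)`, if
the homogeneous coordinates `x` are chosen such that their smallest order is zero. -/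
noncomputable def mult (F : Fin (n + 1) → MvPolynomial (Fin (n + 1)) ℂ) (d : Fin (n + 1) → ℕ)
    (x : Fin (n + 1) → K) (P : Place ℂ K) (k : Fin (n + 1)) : ℤ :=
  P.ord (aeval x (F k)) - d k * minOrder x P

end places

section models

variable {K : Type} [Field K] [Algebra ℂ K] {N : ℕ}

/-- The coordinate ring of the affine chart `y j ≠ 0` of the projective variety with generic point
`y`. -/
def chart (y : Fin (N + 1) → K) (j : Fin (N + 1)) : Subalgebra ℂ K :=
  Algebra.adjoin ℂ (Set.range fun i => y i / y j)

/-- `y` is the generic point, in homogeneous coordinates, of a normal projective variety `Y` in the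
projective `N`-space with function field `K`. -/
def NormalModel (y : Fin (N + 1) → K) : Prop :=
  (∃ j, y j ≠ 0) ∧
  (∀ j, y j ≠ 0 → IntermediateField.adjoin ℂ (Set.range fun i => y i / y j) = ⊤) ∧
  ∀ j, y j ≠ 0 → IsIntegrallyClosed (chart y j)

/-- The centre of the place `P` on `Y` is in the chart `y j ≠ 0`. -/
def Centred (y : Fin (N + 1) → K) (j : Fin (N + 1)) (P : Place ℂ K) : Prop :=
  y j ≠ 0 ∧ ∀ i, P.Reg (y i / y j)

/-- The local ring of `Y` at the centre of the place `P`: the quotients `a / b` of elements of the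
coordinate ring of a chart which contains the centre, such that `b` is not zero at the centre. -/
def localRing (y : Fin (N + 1) → K) (P : Place ℂ K) : Set K :=
  {f | ∃ j, Centred y j P ∧ ∃ a ∈ chart y j, ∃ b ∈ chart y j, b ≠ 0 ∧ P.ord b = 0 ∧ f * b = a}

/-- `P` is a prime divisor on `Y`: the valuation ring of `P` is the local ring of `Y` at the centre
of `P`. -/
def IsPrimeDivisor (y : Fin (N + 1) → K) (P : Place ℂ K) : Prop :=
  ∀ f, P.Reg f → f ∈ localRing y P

/-- The prime divisor `P` of `Y` contains the centre of the place `Q` on `Y`. -/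
def Through (y : Fin (N + 1) → K) (P Q : Place ℂ K) : Prop :=
  ∀ f ∈ localRing y Q, P.Reg f

/-- The order of the form `ω` along `P` is at least `c`: on vector fields which are regular at `P`
its values have order at least `c`. -/
def OrdGe {n : ℕ} (P : Place ℂ K) (ω : (Fin n → Derivation ℂ K K) → K) (c : ℚ) : Prop :=
  ∀ E : Fin n → Derivation ℂ K K, (∀ i, DerReg P (E i)) → ω E = 0 ∨ c ≤ P.ord (ω E)

/-- The order of the form `ω` along `P` is `c`. -/
def OrdEq {n : ℕ} (P : Place ℂ K) (ω : (Fin n → Derivation ℂ K K) → K) (c : ℚ) : Prop :=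
  OrdGe P ω c ∧ ∃ E : Fin n → Derivation ℂ K K, (∀ i, DerReg P (E i)) ∧ ω E ≠ 0 ∧ P.ord (ω E) = c

/-- `Y` has terminal singularities and `r K_Y ~ 0`, where `n` is the dimension of `Y`: the
`r`-canonical form `η` has neither zeros nor poles along the prime divisors of `Y`, and it vanishes
along all the other prime divisors over `Y`. -/
structure TrivialTerminal (y : Fin (N + 1) → K) (n r : ℕ)
    (η : (Fin n → Derivation ℂ K K) → K) : Prop where
  form : IsPluri r η
  generates : ∀ P, IsPrimeDivisor y P → OrdEq P η 0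
  terminal : ∀ Q, Divisorial n Q → ¬ IsPrimeDivisor y Q → OrdGe Q η 1

/-- `L` is a `ℚ`-divisor on `Y`: `L P` is its coefficient in the prime divisor `P` (the values at the
other places are irrelevant). -/
def IsQDivisor (y : Fin (N + 1) → K) (L : Place ℂ K → ℚ) : Prop :=
  {P | IsPrimeDivisor y P ∧ L P ≠ 0}.Finite

/-- `L` is uniform: its coefficients in two prime divisors of `Y` with the same multiplicities are
equal, and zero if the multiplicities are zero. -/
structure Uniform {n : ℕ} (F : Fin (n + 1) → MvPolynomial (Fin (n + 1)) ℂ) (d : Fin (n + 1) → ℕ)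
    (x : Fin (n + 1) → K) (y : Fin (N + 1) → K) (L : Place ℂ K → ℚ) : Prop where
  same : ∀ P P', IsPrimeDivisor y P → IsPrimeDivisor y P' →
    (∀ k, mult F d x P k = mult F d x P' k) → L P = L P'
  zero : ∀ P, IsPrimeDivisor y P → (∀ k, mult F d x P k = 0) → L P = 0

/-- `f` is a section of `m L + j H`, `H` being the hyperplane section `y i = 0`: its order is at least
`- m L P - j ord_P (y i / y l)` along the prime divisors `P` of `Y` with centre in the chart
`y l ≠ 0`. -/
def IsSection (y : Fin (N + 1) → K) (i : Fin (N + 1)) (L : Place ℂ K → ℚ) (m j : ℕ) (f : K) : Prop :=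
  ∀ P l, IsPrimeDivisor y P → Centred y l P → -(m * L P) - j * P.ord (y i / y l) ≤ (P.ord f : ℚ)

/-- `L` is pseudo-effective: for all `M ≥ 1` a positive multiple of `M L + H` is linearly equivalent to
an effective divisor, `H` being a hyperplane section. -/
def Pseudoeffective (y : Fin (N + 1) → K) (L : Place ℂ K → ℚ) : Prop :=
  ∃ i, y i ≠ 0 ∧ ∀ M : ℕ, 1 ≤ M → ∃ j : ℕ, 1 ≤ j ∧ ∃ f : K, f ≠ 0 ∧ IsSection y i L (j * M) j f

/-- The section `s` of `T L` has asymptotically the smallest order at `Q`: if `H` is a hyperplane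
section, then for some constant `C` the inequality `m ord_Q (s) ≤ T ord_Q (f) + C (j + 1)` holds for
all sections `f ≠ 0` of `m L + j H`. -/
def AsymptoticallyMinimal (y : Fin (N + 1) → K) (L : Place ℂ K → ℚ) (T : ℕ) (Q : Place ℂ K) (s : K) :
    Prop :=
  ∀ i, y i ≠ 0 → ∃ C : ℕ, ∀ (m j : ℕ) (f : K), f ≠ 0 → IsSection y i L m j f →
    (m : ℤ) * Q.ord s ≤ T * Q.ord f + C * (j + 1)

end models

/-- `f ^ k / g ^ m` is a section of `k m (L + div g / k) + k j H` if `f` is a section of
`m L + j H`. -/
theorem sec_pow {K : Type} [Field K] [Algebra ℂ K] {N : ℕ} {y : Fin (N + 1) → K} {i : Fin (N + 1)}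
    {L : Place ℂ K → ℚ} {m j : ℕ} {f : K} (hf : f ≠ 0) (h : IsSection y i L m j f) {k : ℕ}
    (hk : 1 ≤ k) {g : K} (hg : g ≠ 0) :
    IsSection y i (fun P => L P + (P.ord g : ℚ) / k) (k * m) (k * j) (f ^ k * g⁻¹ ^ m) := by
  intro P l hP hl
  have hk0 : (0 : ℚ) < k := by exact_mod_cast hk
  have h4 := h P l hP hl
  rw [P.ord_mul (pow_ne_zero _ hf) (pow_ne_zero _ (inv_ne_zero hg)), P.ord_pow, P.ord_pow, P.ord_inv]
  have h5 : ((k * m : ℕ) : ℚ) * (L P + (P.ord g : ℚ) / k) = k * (m * L P) + m * P.ord g := by
    push_cast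
    field_simp
  rw [h5]
  have h6 := mul_le_mul_of_nonneg_left h4 hk0.le
  push_cast
  nlinarith [h6]

/-- **Pseudo-effective uniform divisors.** Let `K` be the function field of an abelian cover of the
projective `n`-space which is branched along `n + 1` hypersurfaces `F k = 0` of degrees `d k`, without a
common point and with a log canonical sum, and let `Y` be a normal projective variety with function
field `K`, with terminal singularities and `r K_Y ~ 0`. If `L` is a pseudo-effective Weil `ℚ`-divisor
on `Y` which is `ℚ`-linearly equivalent to a uniform divisor `L + (div g) / k`, then for some `T ≥ 1`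
there are finitely many nonzero sections of `T L` such that for every prime divisor `Q` over `Y` one of
them has asymptotically the smallest order at `Q`. -/
theorem result (n R : ℕ) (hn : 1 ≤ n) (d : Fin (n + 1) → ℕ) (hd : ∀ k, 1 ≤ d k)
    (F : Fin (n + 1) → MvPolynomial (Fin (n + 1)) ℂ) (hF0 : ∀ k, F k ≠ 0)
    (hF : ∀ k, (F k).IsHomogeneous (d k)) (hN : NoCommonPoint F) (hL : LogCanonicalSum F)
    (m : Fin R → ℕ) (hm : ∀ j, 1 ≤ m j) (a : Fin R → Fin (n + 1) → ℕ)
    (hdiv : ∀ j, m j ∣ ∑ k, a j k * d k)
    (K : Type) [Field K] [Algebra ℂ K] (x : Fin (n + 1) → K) (hx0 : x 0 ≠ 0)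
    (hbas : IsTranscendenceBasis ℂ (affine x)) (z : Fin R → K)
    (hz : ∀ j, z j ^ m j = ∏ k, (aeval x (F k) / x 0 ^ d k) ^ a j k)
    (hgen : IntermediateField.adjoin ℂ (Set.range (affine x) ∪ Set.range z) = ⊤)
    (N : ℕ) (y : Fin (N + 1) → K) (hy : NormalModel y)
    (r : ℕ) (hr : 1 ≤ r) (η : (Fin n → Derivation ℂ K K) → K) (hη : TrivialTerminal y n r η)
    (L : Place ℂ K → ℚ) (hdivL : IsQDivisor y L) (k : ℕ) (hk : 1 ≤ k) (g : K) (hg : g ≠ 0)
    (hu : Uniform F d x y fun P => L P + (P.ord g : ℚ) / k) (hps : Pseudoeffective y L) :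
    ∃ T : ℕ, 0 < T ∧ ∃ (N' : ℕ) (s : Fin (N' + 1) → K),
      (∀ i, s i ≠ 0 ∧ ∀ P, IsPrimeDivisor y P → -(T * L P) ≤ (P.ord (s i) : ℚ)) ∧
      ∀ Q : Place ℂ K, Divisorial n Q → ∃ i, AsymptoticallyMinimal y L T Q (s i) := by
  obtain ⟨e, rfl⟩ : ∃ e, n = e + 1 := ⟨n - 1, by omega⟩
  have hy' : Pool.Agent.Y172.NormalModel y := ⟨hy.1, hy.2.1, hy.2.2⟩
  have hk0 : (0 : ℚ) < k := by exact_mod_cast hk
  have hfin : {P | IsPrimeDivisor y P ∧ L P + (P.ord g : ℚ) / k ≠ 0}.Finite := by
    have h1 : {P : Place ℂ K | IsPrimeDivisor y P ∧ P.ord g ≠ 0}.Finite :=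
      Pool.Agent.Y172.finite_ord hy' hg
    refine (hdivL.union h1).subset ?_
    rintro P ⟨hP, hP0⟩
    by_cases h2 : L P = 0
    · right
      refine ⟨hP, fun h3 => hP0 ?_⟩
      rw [h2, h3]
      simp
    · exact Or.inl ⟨hP, h2⟩
  have hps' : Pseudoeffective y fun P => L P + (P.ord g : ℚ) / k := by
    obtain ⟨i, hi, h1⟩ := hps
    refine ⟨i, hi, fun M hM => ?_⟩
    obtain ⟨j, hj, f, hf, h2⟩ := h1 M hM
    refine ⟨k * j, Nat.mul_pos hk hj, f ^ k * g⁻¹ ^ (j * M),
      mul_ne_zero (pow_ne_zero _ hf) (pow_ne_zero _ (inv_ne_zero hg)), ?_⟩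
    have h3 := sec_pow hf h2 hk hg
    rwa [← mul_assoc] at h3
  obtain ⟨T, hT, N', s, hs, h1⟩ := Pool.Agent.J4.H19.LC.main_zarT hx0 hbas hd hF hF0 hN hL hm hz
    hdiv hgen hy' hr ⟨hη.form, hη.generates, hη.terminal⟩ ⟨hfin, hu.same, hu.zero⟩ hps'
  refine ⟨k * T, Nat.mul_pos hk hT, N', fun i => s i ^ k * g ^ T, fun i => ⟨?_, fun P hP => ?_⟩,
    fun Q _ => ?_⟩
  · exact mul_ne_zero (pow_ne_zero _ (hs i).1) (pow_ne_zero _ hg)
  · have h2 := (hs i).2 P hP
    rw [P.ord_mul (pow_ne_zero _ (hs i).1) (pow_ne_zero _ hg), P.ord_pow, P.ord_pow]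
    have h5 : (k : ℚ) * (T * (L P + (P.ord g : ℚ) / k)) = k * T * L P + T * P.ord g := by
      field_simp
    have h6 := mul_le_mul_of_nonneg_left h2 hk0.le
    rw [mul_neg, h5] at h6
    push_cast
    linarith
  · obtain ⟨i, hi⟩ := h1 Q
    refine ⟨i, fun i0 hi0 => ?_⟩
    obtain ⟨C, hC⟩ := hi i0 hi0
    refine ⟨k * C, fun m j f hf hfs => ?_⟩
    have h2 := hC (k * m) (k * j) (f ^ k * g⁻¹ ^ m)
      (mul_ne_zero (pow_ne_zero _ hf) (pow_ne_zero _ (inv_ne_zero hg))) (sec_pow hf hfs hk hg)
    rw [Q.ord_mul (pow_ne_zero _ hf) (pow_ne_zero _ (inv_ne_zero hg)), Q.ord_pow, Q.ord_pow,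
      Q.ord_inv] at h2
    rw [Q.ord_mul (pow_ne_zero _ (hs i).1) (pow_ne_zero _ hg), Q.ord_pow, Q.ord_pow]
    have hkZ : (1 : ℤ) ≤ k := by exact_mod_cast hk
    have hC0 : (0 : ℤ) ≤ C := by positivity
    push_cast at h2 ⊢
    nlinarith [mul_nonneg hC0 (sub_nonneg.2 hkZ)]

end Pool.Agent.Results.MP_5ee2d0_ag.PseudoeffectiveDivisors
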