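import Pool.Agent.J4.H19.LR.Main

/-!
# Nef divisors on varieties with trivial canonical class which are birational to abelian covers of
# projective space branched along log canonical hypersurfaces

Let `F k`, `k = 0, ..., n`, be forms of degrees `d k` in `n + 1` variables without a common zero such
that the pair of the projective `n`-space and the sum of the hypersurfaces `F k = 0` is log canonical
(for instance, products of the members of `n + 1` parts of a finite family of hypersurfaces with
normal crossings), and let `K` be the function field of an abelian cover of the projective space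
which is branched only along these hypersurfaces: `K` is generated by the affine coordinates
`x (b + 1) / x 0` and by roots `z j`, `z j ^ (m j) = ∏ k, (F k (x) / x 0 ^ (d k)) ^ (a j k)`, where
`m j` divides `∑ k, a j k * d k`.

A prime divisor `P` over the models of `K` has the multiplicities `mult k` along the hypersurfaces
`F k = 0`.

**Theorem.** Let `Y` be a normal projective variety with function field `K`, with terminal
singularities (for instance, smooth) and `r K_Y ~ 0` for some `r ≥ 1`, and let `L` be a nef
`ℚ`-divisor on `Y` which is `ℚ`-linearly equivalent to a *uniform* divisor: its coefficients in two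
prime divisors of `Y` with the same multiplicities are equal, and they are zero if the multiplicities
are zero. Then `L` is semiample.

Examples of such varieties `Y`, of all dimensions, are the crepant resolutions and terminalizations of
the double and abelian covers `X` of the projective space with trivial canonical class which are
branched along hypersurfaces with normal crossings, divided into `n + 1` parts without a common point
of the parts, and `L` is a combination of the pull-back of a hyperplane and of the exceptional divisors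
with coefficients which depend only on the multiplicities. If `n ≥ 3` and `X` is the double cover
branched along `n + 1` smooth hypersurfaces with normal crossings and with the sum of the degrees
`2 n + 2` (for instance, `n + 1` quadrics), every divisor on `Y` is `ℚ`-linearly equivalent to a
uniform divisor, so that every nef divisor on the Calabi-Yau manifold `Y` is semiample.
There are no conditions on the numerical dimension of `L`, `L` need not be effective and `Y` need not
be `ℚ`-factorial, and `H ^ 1 (Y, O_Y)` is arbitrary.

Proof. All prime divisors `P` of `Y` are places along which the canonical form `Ω` of the projective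
space has the smallest order which is possible for the multiplicities of `P`; the terminal variety
`Y` contains all the places with this property with given multiplicities, or none of them. For a
uniform divisor `L` the sections of `m L` are integral over the ring of the monomial forms in the
`F k` with exponents in the polytopes which are defined by `m L`, and traces to the fields of the
radicals and of the projective space show that these monomial forms compute the asymptotic orders of
the sections of `m L + j H` along all divisors over `Y`.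
-/

set_option autoImplicit false

open FF MvPolynomial Pool.Agent.W602.GT

namespace Pool.Agent.Results.MP_5ee2d0_ag.UniformNefDivisors

/-- The affine coordinates of the projective space. -/
noncomputable def affine {n : ℕ} {K : Type} [Field K] (x : Fin (n + 1) → K) (b : Fin n) : K :=
  x b.succ / x 0

/-- The value of the form `Ω = ∑ i, ± x i * d x 0 ∧ ... ∧ d x n` (without `d x i`) on vector fields:
the determinant with the rows `x`, `D 0 x`, ..., `D (n - 1) x`. -/
noncomputable def form {n : ℕ} {K : Type} [Field K] [Algebra ℂ K] (x : Fin (n + 1) → K)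
    (D : Fin n → Derivation ℂ K K) : K :=
  (Matrix.of fun i j : Fin (n + 1) => (Fin.cases (x j) (fun l => D l (x j)) i : K)).det

/-- The pair of the projective `n`-space and the sum of the hypersurfaces `F k = 0` is log
canonical: for all prime divisors `P` over the projective space (divisorial places `P` of its function
field `K`), and homogeneous coordinates `x` which are regular and not all zero at `P`, the canonical
form of the projective space vanishes along `P` at least to the order `∑ k, P.ord (F k (x)) - 1`. -/
def LogCanonicalSum {n : ℕ} (F : Fin (n + 1) → MvPolynomial (Fin (n + 1)) ℂ) : Prop :=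
  ∀ (K : Type) [Field K] [Algebra ℂ K] (x : Fin (n + 1) → K), x 0 ≠ 0 →
    IsTranscendenceBasis ℂ (affine x) → IntermediateField.adjoin ℂ (Set.range (affine x)) = ⊤ →
    ∀ P : Place ℂ K, Divisorial n P → (∀ l, 0 ≤ P.ord (x l)) → (∃ l, P.ord (x l) = 0) →
    ∀ D : Fin n → Derivation ℂ K K, (∀ c, DerReg P (D c)) →
      form x D = 0 ∨ ∑ k, P.ord (aeval x (F k)) - 1 ≤ P.ord (form x D)

/-- The hypersurfaces `F k = 0` have no common point. -/
def NoCommonPoint {n : ℕ} (F : Fin (n + 1) → MvPolynomial (Fin (n + 1)) ℂ) : Prop :=
  ∀ x : Fin (n + 1) → ℂ, x ≠ 0 → ∃ k, eval x (F k) ≠ 0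

section places

variable {n : ℕ} {K : Type} [Field K] [Algebra ℂ K]

/-- The smallest order of the homogeneous coordinates at `P`. -/
noncomputable def minOrder (x : Fin (n + 1) → K) (P : Place ℂ K) : ℤ :=
  Finset.univ.inf' Finset.univ_nonempty fun l => P.ord (x l)

/-- The multiplicity of the divisor `P` along the hypersurface `F k = 0`: the order of `F k (x)`, if
the homogeneous coordinates `x` are chosen such that their smallest order is zero. -/
noncomputable def mult (F : Fin (n + 1) → MvPolynomial (Fin (n + 1)) ℂ) (d : Fin (n + 1) → ℕ)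
    (x : Fin (n + 1) → K) (P : Place ℂ K) (k : Fin (n + 1)) : ℤ :=
  P.ord (aeval x (F k)) - d k * minOrder x P

end places

section models

variable {K : Type} [Field K] [Algebra ℂ K] {N : ℕ}

/-- The coordinate ring of the affine chart `y j ≠ 0` of the projective variety with generic point
`y`. -/
def chart (y : Fin (N + 1) → K) (j : Fin (N + 1)) : Subalgebra ℂ K :=
  Algebra.adjoin ℂ (Set.range fun i => y i / y j)

/-- `y` is the generic point, in homogeneous coordinates, of a normal projective variety `Y` in the
projective `N`-space with function field `K`. -/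
def NormalModel (y : Fin (N + 1) → K) : Prop :=
  (∃ j, y j ≠ 0) ∧
  (∀ j, y j ≠ 0 → IntermediateField.adjoin ℂ (Set.range fun i => y i / y j) = ⊤) ∧
  ∀ j, y j ≠ 0 → IsIntegrallyClosed (chart y j)

/-- The centre of the place `P` on `Y` is in the chart `y j ≠ 0`. -/
def Centred (y : Fin (N + 1) → K) (j : Fin (N + 1)) (P : Place ℂ K) : Prop :=
  y j ≠ 0 ∧ ∀ i, P.Reg (y i / y j)

/-- The local ring of `Y` at the centre of the place `P`: the quotients `a / b` of elements of the
coordinate ring of a chart which contains the centre, such that `b` is not zero at the centre. -/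
def localRing (y : Fin (N + 1) → K) (P : Place ℂ K) : Set K :=
  {f | ∃ j, Centred y j P ∧ ∃ a ∈ chart y j, ∃ b ∈ chart y j, b ≠ 0 ∧ P.ord b = 0 ∧ f * b = a}

/-- `P` is a prime divisor on `Y`: the valuation ring of `P` is the local ring of `Y` at the centre
of `P`. -/
def IsPrimeDivisor (y : Fin (N + 1) → K) (P : Place ℂ K) : Prop :=
  ∀ f, P.Reg f → f ∈ localRing y P

/-- The prime divisor `P` of `Y` contains the centre of the place `Q` on `Y`. -/
def Through (y : Fin (N + 1) → K) (P Q : Place ℂ K) : Prop :=
  ∀ f ∈ localRing y Q, P.Reg f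

/-- The order of the form `ω` along `P` is at least `c`: on vector fields which are regular at `P`
its values have order at least `c`. -/
def OrdGe {n : ℕ} (P : Place ℂ K) (ω : (Fin n → Derivation ℂ K K) → K) (c : ℚ) : Prop :=
  ∀ E : Fin n → Derivation ℂ K K, (∀ i, DerReg P (E i)) → ω E = 0 ∨ c ≤ P.ord (ω E)

/-- The order of the form `ω` along `P` is `c`. -/
def OrdEq {n : ℕ} (P : Place ℂ K) (ω : (Fin n → Derivation ℂ K K) → K) (c : ℚ) : Prop :=
  OrdGe P ω c ∧ ∃ E : Fin n → Derivation ℂ K K, (∀ i, DerReg P (E i)) ∧ ω E ≠ 0 ∧ P.ord (ω E) = c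

/-- `Y` has terminal singularities and `r K_Y ~ 0`, where `n` is the dimension of `Y`: the
`r`-canonical form `η` has neither zeros nor poles along the prime divisors of `Y`, and it vanishes
along all the other prime divisors over `Y`. -/
structure TrivialTerminal (y : Fin (N + 1) → K) (n r : ℕ)
    (η : (Fin n → Derivation ℂ K K) → K) : Prop where
  form : IsPluri r η
  generates : ∀ P, IsPrimeDivisor y P → OrdEq P η 0
  terminal : ∀ Q, Divisorial n Q → ¬ IsPrimeDivisor y Q → OrdGe Q η 1

/-- `L` is a `ℚ`-divisor on `Y`: `L P` is its coefficient in the prime divisor `P` (the values at the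
other places are irrelevant). -/
def IsQDivisor (y : Fin (N + 1) → K) (L : Place ℂ K → ℚ) : Prop :=
  {P | IsPrimeDivisor y P ∧ L P ≠ 0}.Finite

/-- `L` is nef: if `H` is a hyperplane section `y i = 0`, then for all `q ≥ 1` the divisor `q L + H` is
semiample, that is, for some `m ≥ 1` and for all prime divisors `Q` over `Y` there is a section `f` of
`m (q L + H)`, a rational function with order at least `- m q L P - m ord_P (y i / y l)` along the prime
divisors `P` of `Y` with centre in the chart `y l ≠ 0`, which generates this sheaf at the centre of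
`Q`. -/
def Nef (y : Fin (N + 1) → K) (n : ℕ) (L : Place ℂ K → ℚ) : Prop :=
  ∀ i, y i ≠ 0 → ∀ q : ℕ, 1 ≤ q → ∃ m : ℕ, 1 ≤ m ∧ ∀ Q : Place ℂ K, Divisorial n Q →
    ∃ f : K, f ≠ 0 ∧ (∀ P l, IsPrimeDivisor y P → Centred y l P →
        -((m * q : ℕ) * L P) - m * P.ord (y i / y l) ≤ (P.ord f : ℚ)) ∧
      ∀ P l, IsPrimeDivisor y P → Through y P Q → Centred y l P →
        (P.ord f : ℚ) = -((m * q : ℕ) * L P) - m * P.ord (y i / y l)

/-- `L` is semiample: for some `T ≥ 1` the sheaf of `T L` has, for every prime divisor `Q` over `Y`, a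
global section `f` (a rational function with order at least `- T L P` along all prime divisors `P` of
`Y`) which generates it at the centre of `Q` (the order is `- T L P` along the prime divisors `P`
through this centre). -/
def Semiample (y : Fin (N + 1) → K) (n : ℕ) (L : Place ℂ K → ℚ) : Prop :=
  ∃ T : ℕ, 0 < T ∧ ∀ Q : Place ℂ K, Divisorial n Q → ∃ f : K, f ≠ 0 ∧
    (∀ P, IsPrimeDivisor y P → -(T * L P) ≤ (P.ord f : ℚ)) ∧
    ∀ P, IsPrimeDivisor y P → Through y P Q → (P.ord f : ℚ) = -(T * L P)

/-- `L` is uniform: its coefficients in two prime divisors of `Y` with the same multiplicities are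
equal, and zero if the multiplicities are zero. -/
structure Uniform {n : ℕ} (F : Fin (n + 1) → MvPolynomial (Fin (n + 1)) ℂ) (d : Fin (n + 1) → ℕ)
    (x : Fin (n + 1) → K) (y : Fin (N + 1) → K) (L : Place ℂ K → ℚ) : Prop where
  same : ∀ P P', IsPrimeDivisor y P → IsPrimeDivisor y P' →
    (∀ k, mult F d x P k = mult F d x P' k) → L P = L P'
  zero : ∀ P, IsPrimeDivisor y P → (∀ k, mult F d x P k = 0) → L P = 0

end models

/-- `L + div g / k` is nef if `L` is. -/
theorem nef_add {K : Type} [Field K] [Algebra ℂ K] {N n : ℕ} {y : Fin (N + 1) → K}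
    {L : Place ℂ K → ℚ} (h : Nef y n L) {k : ℕ} (hk : 1 ≤ k) {g : K} (hg : g ≠ 0) :
    Nef y n fun P => L P + (P.ord g : ℚ) / k := by
  intro i hi q hq
  obtain ⟨m, hm, h1⟩ := h i hi q hq
  refine ⟨k * m, Nat.mul_pos hk hm, fun Q hQ => ?_⟩
  obtain ⟨f, hf, h2, h3⟩ := h1 Q hQ
  have hk0 : (0 : ℚ) < k := by exact_mod_cast hk
  have hgm : g⁻¹ ^ (m * q) ≠ 0 := pow_ne_zero _ (inv_ne_zero hg)
  have ho : ∀ P : Place ℂ K, ((P.ord (f ^ k * g⁻¹ ^ (m * q)) : ℤ) : ℚ) =
      k * P.ord f - m * q * P.ord g := by
    intro P
    rw [P.ord_mul (pow_ne_zero _ hf) hgm, P.ord_pow, P.ord_pow, P.ord_inv]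
    push_cast
    ring
  refine ⟨f ^ k * g⁻¹ ^ (m * q), mul_ne_zero (pow_ne_zero _ hf) hgm, fun P l hP hl => ?_,
    fun P l hP hPt hl => ?_⟩
  · have h4 := h2 P l hP hl
    rw [ho]
    have h5 : (((k * m * q : ℕ) : ℚ)) * (L P + (P.ord g : ℚ) / k) =
        k * (((m * q : ℕ) : ℚ) * L P) + m * q * P.ord g := by
      push_cast
      field_simp
    rw [h5]
    push_cast at h4 ⊢
    nlinarith [mul_le_mul_of_nonneg_left h4 hk0.le]
  · have h4 := h3 P l hP hPt hl
    rw [ho, h4]
    push_cast
    field_simp
    ring

/-- `L` is semiample if `L + div g / k` is. -/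
theorem semiample_sub {K : Type} [Field K] [Algebra ℂ K] {N n : ℕ} {y : Fin (N + 1) → K}
    {L : Place ℂ K → ℚ} {k : ℕ} (hk : 1 ≤ k) {g : K} (hg : g ≠ 0)
    (h : Semiample y n fun P => L P + (P.ord g : ℚ) / k) : Semiample y n L := by
  obtain ⟨T, hT, h1⟩ := h
  refine ⟨k * T, Nat.mul_pos hk hT, fun Q hQ => ?_⟩
  obtain ⟨f, hf, h2, h3⟩ := h1 Q hQ
  have hk0 : (0 : ℚ) < k := by exact_mod_cast hk
  have hgm : g ^ T ≠ 0 := pow_ne_zero _ hg
  have ho : ∀ P : Place ℂ K, ((P.ord (f ^ k * g ^ T) : ℤ) : ℚ) =
      k * P.ord f + T * P.ord g := by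
    intro P
    rw [P.ord_mul (pow_ne_zero _ hf) hgm, P.ord_pow, P.ord_pow]
    push_cast
    ring
  refine ⟨f ^ k * g ^ T, mul_ne_zero (pow_ne_zero _ hf) hgm, fun P hP => ?_, fun P hP hPt => ?_⟩
  · have h4 := h2 P hP
    rw [ho]
    have h5 : (k : ℚ) * (T * (L P + (P.ord g : ℚ) / k)) = k * T * L P + T * P.ord g := by
      field_simp
    have h6 := mul_le_mul_of_nonneg_left h4 hk0.le
    rw [mul_neg, h5] at h6
    push_cast
    linarith
  · have h4 := h3 P hP hPt
    rw [ho, h4]
    push_cast
    field_simp
    ring

/-- **Uniform nef divisors.** Let `K` be the function field of an abelian cover of the projective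
`n`-space which is branched along `n + 1` hypersurfaces `F k = 0` of degrees `d k`, without a common
point and with a log canonical sum, and let `Y` be a normal projective variety with function field
`K`, with terminal singularities and `r K_Y ~ 0`. Then every nef `ℚ`-divisor `L` on `Y` which is
`ℚ`-linearly equivalent to a uniform divisor `L + (div g) / k` is semiample. -/
theorem result (n R : ℕ) (hn : 1 ≤ n) (d : Fin (n + 1) → ℕ) (hd : ∀ k, 1 ≤ d k)
    (F : Fin (n + 1) → MvPolynomial (Fin (n + 1)) ℂ) (hF0 : ∀ k, F k ≠ 0)
    (hF : ∀ k, (F k).IsHomogeneous (d k)) (hN : NoCommonPoint F) (hL : LogCanonicalSum F)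
    (m : Fin R → ℕ) (hm : ∀ j, 1 ≤ m j) (a : Fin R → Fin (n + 1) → ℕ)
    (hdiv : ∀ j, m j ∣ ∑ k, a j k * d k)
    (K : Type) [Field K] [Algebra ℂ K] (x : Fin (n + 1) → K) (hx0 : x 0 ≠ 0)
    (hbas : IsTranscendenceBasis ℂ (affine x)) (z : Fin R → K)
    (hz : ∀ j, z j ^ m j = ∏ k, (aeval x (F k) / x 0 ^ d k) ^ a j k)
    (hgen : IntermediateField.adjoin ℂ (Set.range (affine x) ∪ Set.range z) = ⊤)
    (N : ℕ) (y : Fin (N + 1) → K) (hy : NormalModel y)
    (r : ℕ) (hr : 1 ≤ r) (η : (Fin n → Derivation ℂ K K) → K) (hη : TrivialTerminal y n r η)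
    (L : Place ℂ K → ℚ) (hdivL : IsQDivisor y L) (k : ℕ) (hk : 1 ≤ k) (g : K) (hg : g ≠ 0)
    (hu : Uniform F d x y fun P => L P + (P.ord g : ℚ) / k) (hnef : Nef y n L) :
    Semiample y n L := by
  obtain ⟨e, rfl⟩ : ∃ e, n = e + 1 := ⟨n - 1, by omega⟩
  have hy' : Pool.Agent.Y172.NormalModel y := ⟨hy.1, hy.2.1, hy.2.2⟩
  have hfin : {P | IsPrimeDivisor y P ∧ L P + (P.ord g : ℚ) / k ≠ 0}.Finite := by
    have h1 : {P : Place ℂ K | IsPrimeDivisor y P ∧ P.ord g ≠ 0}.Finite :=
      Pool.Agent.Y172.finite_ord hy' hg
    refine (hdivL.union h1).subset ?_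
    rintro P ⟨hP, hP0⟩
    by_cases h2 : L P = 0
    · right
      refine ⟨hP, fun h3 => hP0 ?_⟩
      rw [h2, h3]
      simp
    · exact Or.inl ⟨hP, h2⟩
  exact semiample_sub hk hg (Pool.Agent.J4.H19.LC.main_nefT hx0 hbas hd hF hF0 hN hL hm hz hdiv
    hgen hy' hr ⟨hη.form, hη.generates, hη.terminal⟩ ⟨hfin, hu.same, hu.zero⟩ (nef_add hnef hk hg))

end Pool.Agent.Results.MP_5ee2d0_ag.UniformNefDivisors
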